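import Pool.Agent.Q107.Snark.Final

/-!
# `T_i`-snarks of girth at least six exist for every `i ≥ 6`

All definitions of the statement are in `Pool.Agent.Q107.Snark.Defs`.
-/

set_option autoImplicit false

namespace Pool.Agent.Results.MP_b9c5ac_co.GirthSix

open Q107.Snark

/-- For every `i ≥ 6` there is a `T_i`-snark of girth at least 6. -/
theorem result : ∀ i : ℕ, 6 ≤ i → ∃ (V : Type) (G : SimpleGraph V),
    IsTSnark G i ∧ GirthAtLeast G 6 := by
  intro i hi
  obtain ⟨k, rfl⟩ : ∃ k, i = k + 6 := ⟨i - 6, by omega⟩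
  exact ⟨Vx k, Gr k, tsnarkGr k, girthGr k⟩

end Pool.Agent.Results.MP_b9c5ac_co.GirthSix
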